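import Pool.Agent.Lib.MP_9bdacc_co.Linear

/-!
A symmetric conference-type matrix of order 65 has no antimorphism.
-/

namespace Pool.Agent.Lib.MP_9bdacc_co

open Function

instance : Fact (Nat.Prime 5) := ⟨by norm_num⟩

/-- the field with five elements -/
abbrev K5 : Type := ZMod 5

variable {X : Type} [Fintype X]

/-- the bordered matrix -/
def bord (S : X → X → ℤ) : Option X → Option X → ℤ
  | none, none => 0
  | none, some _ => 1
  | some _, none => 1
  | some x, some y => S x y

/-- the operator of the bordered matrix modulo 5 -/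
def cOp (S : X → X → ℤ) : Module.End K5 (Option X → K5) where
  toFun f y := ∑ z, (bord S y z : K5) * f z
  map_add' f g := by
    funext y
    simp [mul_add, Finset.sum_add_distrib]
  map_smul' c f := by
    funext y
    simp [Finset.mul_sum, mul_left_comm, -Fintype.sum_option]

/-- the signed permutation -/
def pOp (σ : Equiv.Perm X) : Module.End K5 (Option X → K5) where
  toFun f y := match y with
    | none => - f none
    | some x => f (some (σ x))
  map_add' f g := by
    funext y
    cases y with
    | none => simp [add_comm]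
    | some x => simp
  map_smul' c f := by
    funext y
    cases y with
    | none => simp
    | some x => simp

theorem cOp_apply (S : X → X → ℤ) (f : Option X → K5) (y : Option X) :
    cOp S f y = ∑ z, (bord S y z : K5) * f z := rfl

omit [Fintype X] in
theorem pOp_none (σ : Equiv.Perm X) (f : Option X → K5) : pOp σ f none = - f none := rfl

omit [Fintype X] in
theorem pOp_some (σ : Equiv.Perm X) (f : Option X → K5) (x : X) :
    pOp σ f (some x) = f (some (σ x)) := rfl

omit [Fintype X] in
theorem bord_symm {S : X → X → ℤ} (hS : ∀ x y, S x y = S y x) (y z : Option X) :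
    bord S y z = bord S z y := by
  cases y <;> cases z <;> simp [bord, hS]

open Classical in
theorem bord_sq {S : X → X → ℤ} (hcard : Fintype.card X = 65) (hS : ∀ x y, S x y = S y x)
    (hsum : ∀ x, ∑ y, S x y = 0) (hsq : ∀ x z, ∑ y, S x y * S y z = if x = z then 64 else -1)
    (y w : Option X) : ∑ z, bord S y z * bord S z w = if y = w then 65 else 0 := by
  cases y with
  | none =>
    cases w with
    | none => simp [bord, Fintype.sum_option, hcard]
    | some w =>
      have : ∑ x, S x w = 0 := by
        rw [← hsum w]
        exact Finset.sum_congr rfl fun x _ => hS x w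
      simp [bord, Fintype.sum_option, this]
  | some y =>
    cases w with
    | none => simp [bord, Fintype.sum_option, hsum]
    | some w =>
      simp only [bord, Fintype.sum_option, hsq, Option.some.injEq]
      split_ifs <;> norm_num

section

variable {S : X → X → ℤ} (hcard : Fintype.card X = 65) (hS : ∀ x y, S x y = S y x)
  (hsum : ∀ x, ∑ y, S x y = 0)
include hcard hS hsum

open Classical in
theorem cOp_sq (hsq : ∀ x z, ∑ y, S x y * S y z = if x = z then 64 else -1)
    (f : Option X → K5) : cOp S (cOp S f) = 0 := by
  funext y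
  have h : ∀ w, ∑ z, (bord S y z : K5) * (bord S z w : K5) = 0 := by
    intro w
    have h1 := congrArg (Int.cast : ℤ → K5) (bord_sq hcard hS hsum hsq y w)
    push_cast at h1
    rw [h1]
    split_ifs
    · decide
    · rfl
  simp only [cOp_apply, Pi.zero_apply]
  calc ∑ z, (bord S y z : K5) * ∑ w, (bord S z w : K5) * f w
      = ∑ w, (∑ z, (bord S y z : K5) * (bord S z w : K5)) * f w := by
        simp only [Finset.mul_sum, Finset.sum_mul]
        rw [Finset.sum_comm]
        exact Finset.sum_congr rfl fun w _ => Finset.sum_congr rfl fun z _ => by ring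
    _ = 0 := by simp [h]

open Classical in
theorem cOp_exact (hsq : ∀ x z, ∑ y, S x y * S y z = if x = z then 64 else -1)
    (f : Option X → K5) (hf : cOp S f = 0) : ∃ g, cOp S g = f := by
  -- lift to the integers
  let g : Option X → ℤ := fun y => ((f y).val : ℤ)
  have hg : ∀ y, (g y : K5) = f y := by
    intro y
    simp [g]
  have hdiv : ∀ y, ∃ w : ℤ, ∑ z, bord S y z * g z = 5 * w := by
    intro y
    have h1 : ((∑ z, bord S y z * g z : ℤ) : K5) = 0 := by
      push_cast
      have := congrFun hf y
      rw [cOp_apply] at this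
      simpa [hg] using this
    exact (ZMod.intCast_zmod_eq_zero_iff_dvd _ 5).1 h1
  choose w hw using hdiv
  have h2 : ∀ y, 65 * g y = 5 * ∑ z, bord S y z * w z := by
    intro y
    calc 65 * g y = ∑ u, (if y = u then 65 else 0) * g u := by simp
      _ = ∑ u, (∑ z, bord S y z * bord S z u) * g u := by
          refine Finset.sum_congr rfl fun u _ => ?_
          rw [bord_sq hcard hS hsum hsq]
      _ = ∑ z, bord S y z * ∑ u, bord S z u * g u := by
          simp only [Finset.mul_sum, Finset.sum_mul]
          rw [Finset.sum_comm]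
          exact Finset.sum_congr rfl fun z _ => Finset.sum_congr rfl fun u _ => by ring
      _ = 5 * ∑ z, bord S y z * w z := by
          simp only [hw, Finset.mul_sum]
          exact Finset.sum_congr rfl fun z _ => by ring
  have h3 : ∀ y, 13 * g y = ∑ z, bord S y z * w z := by
    intro y
    have := h2 y
    linarith
  refine ⟨fun z => 2 * (w z : K5), ?_⟩
  funext y
  rw [cOp_apply]
  have h4 := congrArg (Int.cast : ℤ → K5) (h3 y)
  push_cast at h4
  rw [hg] at h4
  calc ∑ z, (bord S y z : K5) * (2 * (w z : K5)) = 2 * ∑ z, (bord S y z : K5) * (w z : K5) := by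
        rw [Finset.mul_sum]
        exact Finset.sum_congr rfl fun z _ => by ring
    _ = 2 * (13 * f y) := by rw [← h4]
    _ = (2 * 13) * f y := by ring
    _ = f y := by
        have : (2 * 13 : K5) = 1 := by decide
        rw [this, one_mul]

end

theorem cOp_adj {S : X → X → ℤ} (hS : ∀ x y, S x y = S y x) (f g : Option X → K5) :
    dot K5 (Option X) (cOp S f) g = dot K5 (Option X) f (cOp S g) := by
  simp only [dot_apply, cOp_apply, Finset.mul_sum, Finset.sum_mul]
  rw [Finset.sum_comm]
  refine Finset.sum_congr rfl fun y _ => Finset.sum_congr rfl fun z _ => ?_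
  rw [bord_symm hS z y]
  ring

theorem cOp_pOp {S : X → X → ℤ} {σ : Equiv.Perm X} (hσ : ∀ x y, S (σ x) (σ y) = - S x y)
    (f : Option X → K5) : cOp S (pOp σ f) = - pOp σ (cOp S f) := by
  funext y
  cases y with
  | none =>
    rw [Pi.neg_apply, pOp_none, neg_neg, cOp_apply, cOp_apply, Fintype.sum_option,
      Fintype.sum_option]
    simp only [bord, pOp_some, Int.cast_zero, zero_mul, Int.cast_one, one_mul, zero_add]
    exact Equiv.sum_comp σ fun x => f (some x)
  | some x =>
    rw [Pi.neg_apply, pOp_some, cOp_apply, cOp_apply, Fintype.sum_option, Fintype.sum_option]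
    simp only [bord, pOp_none, pOp_some, Int.cast_one, one_mul]
    rw [← Equiv.sum_comp σ fun y => (S (σ x) y : K5) * f (some y)]
    simp only [hσ, Int.cast_neg, neg_mul, Finset.sum_neg_distrib]
    ring

theorem pOp_iso (σ : Equiv.Perm X) (f g : Option X → K5) :
    dot K5 (Option X) (pOp σ f) (pOp σ g) = dot K5 (Option X) f g := by
  simp only [dot_apply, Fintype.sum_option, pOp_none, pOp_some, neg_mul_neg]
  congr 1
  exact Equiv.sum_comp σ fun x => f (some x) * g (some x)

omit [Fintype X] in
theorem pOp_pow (σ : Equiv.Perm X) (j : ℕ) (f : Option X → K5) :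
    (pOp σ ^ j) f none = (-1) ^ j * f none ∧ ∀ x, (pOp σ ^ j) f (some x) = f (some ((σ ^ j) x)) := by
  induction j generalizing f with
  | zero => simp
  | succ j ih =>
    rw [pow_succ, Module.End.mul_apply]
    obtain ⟨h1, h2⟩ := ih (pOp σ f)
    refine ⟨?_, ?_⟩
    · rw [h1, pOp_none]
      ring
    · intro x
      rw [h2, pOp_some, pow_succ', Equiv.Perm.mul_apply]

omit [Fintype X] in
theorem pOp_pow_eq_one {σ : Equiv.Perm X} {a : ℕ} (ha : σ ^ (2 ^ a) = 1) :
    pOp σ ^ (2 ^ (a + 3)) = 1 := by
  ext1 f
  funext y
  obtain ⟨h1, h2⟩ := pOp_pow σ (2 ^ (a + 3)) f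
  cases y with
  | none =>
    rw [h1, Even.neg_one_pow ((Nat.even_pow.2 ⟨even_two, by omega⟩)), one_mul]
    rfl
  | some x =>
    rw [h2, pow_add, pow_mul, ha, one_pow]
    rfl

/-- the fixed space -/
theorem finrank_fixed (σ : Equiv.Perm X) :
    Module.finrank K5 (LinearMap.ker (pOp σ - 1)) = Fintype.card (Cyc σ) := by
  classical
  have hmem : ∀ f, f ∈ LinearMap.ker (pOp σ - 1) ↔ pOp σ f = f := by
    intro f
    rw [LinearMap.mem_ker, LinearMap.sub_apply, Module.End.one_apply, sub_eq_zero]
  let e : LinearMap.ker (pOp σ - 1) ≃ₗ[K5] eqv σ (1 : Module.End K5 K5) :=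
    { toFun := fun f => ⟨fun x => f.1 (some x), fun x => by
        have := congrFun ((hmem _).1 f.2) (some x)
        exact this⟩
      invFun := fun F => ⟨fun y => match y with
        | none => 0
        | some x => F.1 x, (hmem _).2 (by
          funext y
          cases y with
          | none => simp [pOp_none]
          | some x => exact F.2 x)⟩
      map_add' := fun f g => rfl
      map_smul' := fun c f => rfl
      left_inv := by
        intro f
        apply Subtype.ext
        funext y
        cases y with
        | none =>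
          have h := congrFun ((hmem _).1 f.2) none
          rw [pOp_none] at h
          have h5 : (2 : K5) ≠ 0 := by decide
          have h6 : (2 : K5) * f.1 none = 0 := by
            linear_combination (-1 : K5) * h
          rcases mul_eq_zero.1 h6 with h7 | h7
          · exact absurd h7 h5
          · exact h7.symm
        | some x => rfl
      right_inv := fun F => rfl }
  rw [e.finrank_eq, finrank_eqv (fun _ => True) (fun ω _ => one_pow _) (fun ω h => absurd trivial h)]
  rw [Module.finrank_self, mul_one, ← Nat.card_eq_fintype_card]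
  exact Nat.card_congr (Equiv.subtypeUnivEquiv fun _ => trivial)

/-- the companion map -/
def mOp : Module.End K5 (K5 × K5) where
  toFun w := (w.2, 2 * w.1)
  map_add' v w := by
    ext <;> simp [mul_add]
  map_smul' c w := by
    ext <;> simp [mul_left_comm]

theorem mOp_four (w : K5 × K5) : (mOp ^ 4) w = -w := by
  have h : (mOp ^ 4) w = mOp (mOp (mOp (mOp w))) := rfl
  rw [h]
  have h4 : (2 * 2 : K5) = -1 := by decide
  ext
  · show 2 * (2 * w.1) = - w.1
    rw [← mul_assoc, h4, neg_one_mul]
  · show 2 * (2 * w.2) = - w.2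
    rw [← mul_assoc, h4, neg_one_mul]

theorem mOp_eight : mOp ^ 8 = 1 := by
  ext1
  · ext1
    show (mOp ^ (4 + 4)) _ = _
    rw [pow_add, Module.End.mul_apply, mOp_four, mOp_four, neg_neg]
    rfl
  · ext1
    show (mOp ^ (4 + 4)) _ = _
    rw [pow_add, Module.End.mul_apply, mOp_four, mOp_four, neg_neg]
    rfl

/-- the eigenspace -/
theorem finrank_eigen {σ : Equiv.Perm X} {a : ℕ} (ha : σ ^ (2 ^ a) = 1) {v0 : X}
    (hfix : ∀ x, σ x = x ↔ x = v0) (h2 : ∀ x, σ (σ x) = x → σ x = x) :
    Module.finrank K5 (LinearMap.ker (pOp σ * pOp σ - (2 : K5) • (1 : Module.End K5 (Option X → K5))))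
      = Nat.card {ω : Cyc σ // 8 ∣ len ω} * 2 := by
  classical
  have hmem : ∀ f, f ∈ LinearMap.ker (pOp σ * pOp σ - (2 : K5) • (1 : Module.End K5 (Option X → K5))) ↔
      pOp σ (pOp σ f) = (2 : K5) • f := by
    intro f
    rw [LinearMap.mem_ker, LinearMap.sub_apply, sub_eq_zero]
    rfl
  let e : LinearMap.ker (pOp σ * pOp σ - (2 : K5) • (1 : Module.End K5 (Option X → K5))) ≃ₗ[K5]
      eqv σ mOp :=
    { toFun := fun f => ⟨fun x => (f.1 (some x), f.1 (some (σ x))), fun x => by
        have := congrFun ((hmem _).1 f.2) (some x)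
        exact Prod.ext rfl this⟩
      invFun := fun F => ⟨fun y => match y with
        | none => 0
        | some x => (F.1 x).1, (hmem _).2 (by
          funext y
          cases y with
          | none => simp [pOp_none]
          | some x =>
            have h3 : F.1 (σ x) = mOp (F.1 x) := F.2 x
            have h4 : F.1 (σ (σ x)) = mOp (F.1 (σ x)) := F.2 (σ x)
            show (F.1 (σ (σ x))).1 = 2 * (F.1 x).1
            rw [h4, h3]
            rfl)⟩
      map_add' := fun f g => rfl
      map_smul' := fun c f => rfl
      left_inv := by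
        intro f
        apply Subtype.ext
        funext y
        cases y with
        | none =>
          have h := congrFun ((hmem _).1 f.2) none
          rw [pOp_none, pOp_none, neg_neg] at h
          have h6 : f.1 none = 2 * f.1 none := h
          have h7 : f.1 none = 0 := by linear_combination (-1 : K5) * h6
          exact h7.symm
        | some x => rfl
      right_inv := by
        intro F
        apply Subtype.ext
        funext x
        have h3 : F.1 (σ x) = mOp (F.1 x) := F.2 x
        show ((F.1 x).1, (F.1 (σ x)).1) = F.1 x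
        rw [h3]
        rfl }
  rw [e.finrank_eq, finrank_eqv (fun ω => 8 ∣ len ω)]
  · rw [Module.finrank_prod, Module.finrank_self]
  · rintro ω ⟨c, hc⟩
    rw [hc, pow_mul, mOp_eight, one_pow]
  · intro ω hω w hw
    have h4 : len ω ∣ 4 := by
      rcases len_cases ha hfix h2 ω with ⟨h, _⟩ | ⟨h, _⟩ | ⟨h, _⟩
      · rw [h]
        norm_num
      · rw [h]
      · exact absurd h hω
    obtain ⟨c, hc⟩ := h4
    have h5 : (mOp ^ 4) w = w := by
      rw [hc, pow_mul]
      clear hc
      induction c with
      | zero => simp
      | succ c ih => rw [pow_succ', Module.End.mul_apply, ih, hw]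
    rw [mOp_four] at h5
    have h6 : (2 : K5) • w = 0 := by
      rw [two_smul]
      nth_rewrite 1 [← h5]
      simp
    rcases smul_eq_zero.1 h6 with h7 | h7
    · exact absurd h7 (by decide)
    · exact h7

open Classical in
/-- No symmetric matrix of order 65 with zero row sums and square `65 I - J` has an antimorphism
of order a power of two with exactly one fixed point and no cycle of length two. -/
theorem no_antimorphism {S : X → X → ℤ} (hcard : Fintype.card X = 65)
    (hS : ∀ x y, S x y = S y x) (hsum : ∀ x, ∑ y, S x y = 0)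
    (hsq : ∀ x z, ∑ y, S x y * S y z = if x = z then 64 else -1)
    {σ : Equiv.Perm X} (hσ : ∀ x y, S (σ x) (σ y) = - S x y)
    {a : ℕ} (ha : σ ^ (2 ^ a) = 1) {v0 : X}
    (hfix : ∀ x, σ x = x ↔ x = v0) (h2 : ∀ x, σ (σ x) = x → σ x = x) : False := by
  have hN : ((2 ^ (a + 3) : ℕ) : K5) ≠ 0 := by
    push_cast
    exact pow_ne_zero _ (by decide)
  have hNe : Even (2 ^ (a + 3)) := Nat.even_pow.2 ⟨even_two, by omega⟩
  have e1 := even_fixed hN hNe (cOp_adj hS) (cOp_sq hcard hS hsum hsq) (cOp_exact hcard hS hsum hsq)
    (cOp_pOp hσ) (pOp_iso σ) (pOp_pow_eq_one ha)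
  rw [finrank_fixed] at e1
  have e2 := four_dvd_eigen hN 2 (by decide) (by decide) (by
    rw [pow_add, mul_comm, pow_mul]
    have : (2 : K5) ^ 2 ^ 3 = 1 := by decide
    rw [this, one_pow]) (cOp_sq hcard hS hsum hsq) (cOp_exact hcard hS hsum hsq) (cOp_pOp hσ)
    (pOp_pow_eq_one ha)
  rw [finrank_eigen ha hfix h2] at e2
  have e3 := parity ha hfix h2
  rw [hcard] at e3
  obtain ⟨b, hb⟩ := e1
  obtain ⟨c, hc⟩ := e2
  omega

end Pool.Agent.Lib.MP_9bdacc_co
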