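import Mathlib

/-!
Definition for problem MP_9bdacc_co.
-/

namespace Pool.Agent.Lib.MP_9bdacc_co

open Classical in
/-- The graph `G` on `n` vertices is strongly regular (it is regular, every edge lies in the same
number `l` of triangles, and every two distinct non-adjacent vertices have the same number `m` of
common neighbours) and self-complementary. -/
def IsSRSC {n : ℕ} (G : SimpleGraph (Fin n)) : Prop :=
  (∃ d l m : ℕ, G.IsSRGWith n d l m) ∧ Nonempty (G ≃g Gᶜ)

end Pool.Agent.Lib.MP_9bdacc_co
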