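import Pool.Agent.Lib.MP_9bdacc_co.Conf

/-!
There is no strongly regular self-complementary graph on 65 vertices.
-/

namespace Pool.Agent.Lib.MP_9bdacc_co

open SimpleGraph

theorem params {G : SimpleGraph (Fin 65)} [DecidableRel G.Adj] {d l m : ℕ}
    (h : G.IsSRGWith 65 d l m) (e : G ≃g Gᶜ) : d = 32 ∧ l = 15 ∧ m = 16 := by
  classical
  have hdeg : d = 65 - d - 1 := by
    have h1 := h.regular 0
    have h2 := h.compl.regular (e 0)
    rw [← SimpleGraph.card_neighborSet_eq_degree] at h1 h2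
    rw [← h2, ← h1]
    exact Fintype.card_congr (e.mapNeighborSet 0)
  have hd : d = 32 := by omega
  subst hd
  -- an edge
  have hedge : ∃ w, G.Adj 0 w := by
    have h1 := h.regular 0
    have h2 : 0 < G.degree 0 := by omega
    exact (G.degree_pos_iff_exists_adj 0).1 h2
  obtain ⟨w, hw⟩ := hedge
  have hl : l = 65 - (2 * 32 - m) - 2 := by
    have h1 := h.of_adj 0 w hw
    have h2 := h.compl.of_adj (e 0) (e w) (e.map_adj_iff.2 hw)
    rw [← h2, ← h1]
    refine Fintype.card_congr (Equiv.subtypeEquiv e.toEquiv fun x => ?_)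
    show (x ∈ G.commonNeighbors 0 w) ↔ (e x ∈ Gᶜ.commonNeighbors (e 0) (e w))
    rw [SimpleGraph.mem_commonNeighbors, SimpleGraph.mem_commonNeighbors, e.map_adj_iff,
      e.map_adj_iff]
  have hp := IsSRGWith.param_eq G h (by norm_num)
  refine ⟨rfl, ?_⟩
  omega

/-- the signed adjacency function -/
def sgn (G : SimpleGraph (Fin 65)) [DecidableRel G.Adj] (x y : Fin 65) : ℤ :=
  1 - (if x = y then 1 else 0) - 2 * (if G.Adj x y then 1 else 0)

theorem sgn_symm (G : SimpleGraph (Fin 65)) [DecidableRel G.Adj] (x y : Fin 65) :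
    sgn G x y = sgn G y x := by
  unfold sgn
  simp only [eq_comm (a := x) (b := y), G.adj_comm x y]

theorem sgn_ne_zero (G : SimpleGraph (Fin 65)) [DecidableRel G.Adj] {x y : Fin 65} (h : x ≠ y) :
    sgn G x y ≠ 0 := by
  unfold sgn
  split_ifs <;> simp_all

theorem sgn_iso {G : SimpleGraph (Fin 65)} [DecidableRel G.Adj] (e : G ≃g Gᶜ) (x y : Fin 65) :
    sgn G (e x) (e y) = - sgn G x y := by
  have h1 := e.map_adj_iff (v := x) (w := y)
  rw [SimpleGraph.compl_adj] at h1
  have h2 : e x = e y ↔ x = y := e.toEquiv.apply_eq_iff_eq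
  unfold sgn
  by_cases hxy : x = y
  · subst hxy
    simp
  · have h3 : e x ≠ e y := fun h => hxy (h2.1 h)
    by_cases ha : G.Adj x y
    · have h4 := (h1.2 ha).2
      simp [hxy, h3, ha, h4]
    · have h4 : G.Adj (e x) (e y) := by
        by_contra hne
        exact ha (h1.1 ⟨h3, hne⟩)
      simp [hxy, h3, ha, h4]

theorem sum_adj {G : SimpleGraph (Fin 65)} [DecidableRel G.Adj] {l m : ℕ}
    (h : G.IsSRGWith 65 32 l m) (x : Fin 65) : ∑ y, (if G.Adj x y then (1 : ℤ) else 0) = 32 := by
  have h1 := h.regular x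
  rw [← Finset.sum_filter, Finset.sum_const, ← SimpleGraph.card_neighborFinset_eq_degree] at *
  rw [← SimpleGraph.neighborFinset_eq_filter, h1]
  norm_num

theorem sum_adj' {G : SimpleGraph (Fin 65)} [DecidableRel G.Adj] {l m : ℕ}
    (h : G.IsSRGWith 65 32 l m) (x : Fin 65) : ∑ y, (if G.Adj y x then (1 : ℤ) else 0) = 32 := by
  rw [← sum_adj h x]
  exact Finset.sum_congr rfl fun y _ => by simp only [G.adj_comm]

theorem sum_adj_adj {G : SimpleGraph (Fin 65)} [DecidableRel G.Adj]
    (h : G.IsSRGWith 65 32 15 16) (x z : Fin 65) :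
    ∑ y, (if G.Adj x y then (1 : ℤ) else 0) * (if G.Adj y z then (1 : ℤ) else 0) =
      if x = z then 32 else if G.Adj x z then 15 else 16 := by
  have h1 := congrFun (congrFun (h.matrix_eq (α := ℤ)) x) z
  rw [sq, Matrix.mul_apply] at h1
  simp only [SimpleGraph.adjMatrix_apply, Matrix.add_apply, Matrix.smul_apply, Matrix.one_apply,
    SimpleGraph.compl_adj] at h1
  rw [h1]
  by_cases hxz : x = z
  · subst hxz
    simp
  · by_cases ha : G.Adj x z
    · simp [hxz, ha]
    · simp [hxz, ha]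

theorem sgn_sum {G : SimpleGraph (Fin 65)} [DecidableRel G.Adj] {l m : ℕ}
    (h : G.IsSRGWith 65 32 l m) (x : Fin 65) : ∑ y, sgn G x y = 0 := by
  unfold sgn
  rw [Finset.sum_sub_distrib, Finset.sum_sub_distrib, ← Finset.mul_sum, sum_adj h]
  simp

theorem sgn_sq {G : SimpleGraph (Fin 65)} [DecidableRel G.Adj]
    (h : G.IsSRGWith 65 32 15 16) (x z : Fin 65) :
    ∑ y, sgn G x y * sgn G y z = if x = z then 64 else -1 := by
  have hexp : ∀ y, sgn G x y * sgn G y z =
      1 - (if y = z then 1 else 0) - 2 * (if G.Adj y z then 1 else 0)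
      - (if x = y then 1 else 0) + (if x = y then (if y = z then 1 else 0) else 0)
      + 2 * (if x = y then (if G.Adj y z then 1 else 0) else 0)
      - 2 * (if G.Adj x y then 1 else 0)
      + 2 * (if y = z then (if G.Adj x y then 1 else 0) else 0)
      + 4 * ((if G.Adj x y then (1 : ℤ) else 0) * (if G.Adj y z then (1 : ℤ) else 0)) := by
    intro y
    unfold sgn
    split_ifs <;> ring
  rw [Finset.sum_congr rfl fun y _ => hexp y]
  simp only [Finset.sum_add_distrib, Finset.sum_sub_distrib, ← Finset.mul_sum, sum_adj h,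
    sum_adj' h, sum_adj_adj h, Finset.sum_ite_eq, Finset.sum_ite_eq', Finset.mem_univ, if_true,
    Finset.sum_const, Finset.card_univ, Fintype.card_fin]
  by_cases hxz : x = z
  · subst hxz
    simp
  · by_cases ha : G.Adj x z
    · simp [hxz, ha]
    · simp [hxz, ha]

theorem no_srsc {G : SimpleGraph (Fin 65)} [DecidableRel G.Adj] {d l m : ℕ}
    (h : G.IsSRGWith 65 d l m) (e : G ≃g Gᶜ) : False := by
  classical
  obtain ⟨rfl, rfl, rfl⟩ := params h e
  let τ : Equiv.Perm (Fin 65) := e.toEquiv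
  have hτ : ∀ x y, sgn G (τ x) (τ y) = - sgn G x y := fun x y => sgn_iso e x y
  have hτj : ∀ (j : ℕ) (x y : Fin 65), sgn G ((τ ^ j) x) ((τ ^ j) y) = (-1) ^ j * sgn G x y := by
    intro j
    induction j with
    | zero => intro x y; simp
    | succ j ih =>
      intro x y
      rw [pow_succ', Equiv.Perm.mul_apply, Equiv.Perm.mul_apply, hτ, ih, pow_succ]
      ring
  obtain ⟨a, q, hq, hord⟩ := Nat.exists_eq_two_pow_mul_odd (orderOf_pos τ).ne'
  set σ : Equiv.Perm (Fin 65) := τ ^ q with hσdef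
  have hσ : ∀ x y, sgn G (σ x) (σ y) = - sgn G x y := by
    intro x y
    rw [hσdef, hτj, hq.neg_one_pow]
    ring
  have ha : σ ^ (2 ^ a) = 1 := by
    rw [hσdef, ← pow_mul, mul_comm, ← hord, pow_orderOf_eq_one]
  obtain ⟨v0, hv0⟩ := Equiv.Perm.exists_fixed_point_of_prime (p := 2) (n := a) (σ := σ)
    (by rw [Fintype.card_fin]; norm_num) ha
  have hfix : ∀ x, σ x = x ↔ x = v0 := by
    intro x
    constructor
    · intro hx
      by_contra hne
      have h1 := hσ x v0
      rw [hx, hv0] at h1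
      exact sgn_ne_zero G hne (by linarith)
    · rintro rfl
      exact hv0
  have h2 : ∀ x, σ (σ x) = x → σ x = x := by
    intro x hx
    by_contra hne
    have h1 := hσ x (σ x)
    rw [hx, sgn_symm] at h1
    exact sgn_ne_zero G (Ne.symm hne) (by linarith)
  refine no_antimorphism (S := sgn G) (Fintype.card_fin 65) (sgn_symm G) (sgn_sum h) ?_ hσ ha hfix h2
  intro x z
  rw [sgn_sq h]
  congr

end Pool.Agent.Lib.MP_9bdacc_co
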