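import Pool.Agent.Lib.MP_9bdacc_co.Orbits

/-!
Linear algebra: eigenspaces of a signed permutation anticommuting with a symmetric operator whose
kernel equals its image.
-/

namespace Pool.Agent.Lib.MP_9bdacc_co

section general

variable {K : Type} [Field K] {V : Type} [AddCommGroup V] [Module K V]

/-- Averaging: exactness of `C` on eigenspaces of `Q`. -/
theorem exact_eigen (C Q : Module.End K V) (N : ℕ) (hN : (N : K) ≠ 0) (lam mu : K)
    (hlam : lam ≠ 0) (hmu : mu ≠ 0) (hmuN : mu ^ N = 1) (hQ : Q ^ N = 1)
    (hcomm : ∀ x, lam • C (Q x) = mu • Q (C x))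
    (hex : ∀ x, C x = 0 → ∃ y, C y = x) (x : V) (hx : C x = 0) (hQx : Q x = lam • x) :
    ∃ y, Q y = mu • y ∧ C y = x := by
  obtain ⟨y0, hy0⟩ := hex x hx
  set R : Module.End K V := mu⁻¹ • Q with hR
  set R' : Module.End K V := lam⁻¹ • Q with hR'
  have hRN : R ^ N = 1 := by
    rw [hR, smul_pow, hQ, inv_pow, hmuN, inv_one, one_smul]
  have hsemi : SemiconjBy C R R' := by
    show C * R = R' * C
    ext v
    simp only [hR, hR', Module.End.mul_apply, LinearMap.smul_apply, map_smul]
    have h := hcomm v
    rw [inv_smul_eq_iff₀ hmu, smul_comm, ← h, inv_smul_smul₀ hlam]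
  have hfix : R * (∑ j ∈ Finset.range N, R ^ j) = ∑ j ∈ Finset.range N, R ^ j := by
    have h := mul_geom_sum R N
    rw [hRN, sub_self, sub_mul, one_mul, sub_eq_zero] at h
    exact h
  set z : V := (∑ j ∈ Finset.range N, R ^ j) y0 with hz
  have hRz : R z = z := by
    rw [hz, ← Module.End.mul_apply, hfix]
  have hCz : C z = (N : K) • x := by
    rw [hz, LinearMap.sum_apply, map_sum]
    have h1 : ∀ j ∈ Finset.range N, C ((R ^ j) y0) = x := by
      intro j _
      have h2 : C * R ^ j = R' ^ j * C := hsemi.pow_right j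
      have h3 := LinearMap.congr_fun h2 y0
      simp only [Module.End.mul_apply] at h3
      rw [h3, hy0]
      have hR'x : R' x = x := by
        rw [hR', LinearMap.smul_apply, hQx, inv_smul_smul₀ hlam]
      clear h2 h3
      induction j with
      | zero => simp
      | succ j ih =>
        rw [pow_succ', Module.End.mul_apply, ih (Finset.mem_range.2 (by
          have := Finset.mem_range.1 ‹_›
          omega)), hR'x]
    rw [Finset.sum_congr rfl h1, Finset.sum_const, Finset.card_range, ← Nat.cast_smul_eq_nsmul K]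
  refine ⟨(N : K)⁻¹ • z, ?_, ?_⟩
  · rw [map_smul, smul_comm mu]
    congr 1
    rw [hR, LinearMap.smul_apply, inv_smul_eq_iff₀ hmu] at hRz
    exact hRz
  · rw [map_smul, hCz, inv_smul_smul₀ hN]

/-- A space with an operator whose square is a nonsquare scalar has even dimension. -/
theorem even_of_sq [FiniteDimensional K V] (J : Module.End K V) (c : K) (hc : ∀ x : K, x ^ 2 ≠ c)
    (hc0 : c ≠ 0) (hJ : ∀ v, J (J v) = c • v) : Even (Module.finrank K V) := by
  by_contra hodd
  rw [Nat.not_even_iff_odd] at hodd
  obtain ⟨k, hk⟩ := hodd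
  have h1 : J * J = c • (1 : Module.End K V) := by
    ext v
    simp [hJ v]
  have h2 : LinearMap.det (J * J) = LinearMap.det (c • (1 : Module.End K V)) := by rw [h1]
  rw [map_mul, LinearMap.det_smul, map_one, mul_one, hk] at h2
  apply hc (LinearMap.det J / c ^ k)
  have h3 : c ^ k ≠ 0 := pow_ne_zero _ hc0
  rw [div_pow, sq, h2, div_eq_iff (pow_ne_zero _ h3)]
  ring

end general

section dot

variable {K : Type} [Field K] {Y : Type} [Fintype Y]

/-- the standard bilinear form -/
def dot (K Y : Type) [Field K] [Fintype Y] : LinearMap.BilinForm K (Y → K) :=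
  LinearMap.mk₂ K (fun f g => ∑ y, f y * g y)
    (by intro f f' g; simp [add_mul, Finset.sum_add_distrib])
    (by intro c f g; simp [Finset.mul_sum, mul_assoc])
    (by intro f g g'; simp [mul_add, Finset.sum_add_distrib])
    (by intro c f g; simp [Finset.mul_sum, mul_left_comm])

theorem dot_apply (f g : Y → K) : dot K Y f g = ∑ y, f y * g y := rfl

theorem dot_comm (f g : Y → K) : dot K Y f g = dot K Y g f := by
  simp only [dot_apply, mul_comm]

/-- The form is nondegenerate on the fixed space of an isometry of order prime to the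
characteristic. -/
theorem nondeg_fixed [DecidableEq Y] (R : Module.End K (Y → K))
    (hiso : ∀ f g, dot K Y (R f) (R g) = dot K Y f g) (N : ℕ) (hN : (N : K) ≠ 0) (hR : R ^ N = 1)
    (w : Y → K) (hw : R w = w) (h : ∀ v, R v = v → dot K Y w v = 0) : w = 0 := by
  funext y
  have hfix : R * (∑ j ∈ Finset.range N, R ^ j) = ∑ j ∈ Finset.range N, R ^ j := by
    have h := mul_geom_sum R N
    rw [hR, sub_self, sub_mul, one_mul, sub_eq_zero] at h
    exact h
  set e : Y → K := Pi.single y 1 with he
  have h1 := h ((∑ j ∈ Finset.range N, R ^ j) e) (by rw [← Module.End.mul_apply, hfix])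
  rw [LinearMap.sum_apply, map_sum] at h1
  have h2 : ∀ j ∈ Finset.range N, dot K Y w ((R ^ j) e) = w y := by
    intro j _
    have h3 : ∀ j : ℕ, dot K Y w ((R ^ j) e) = dot K Y w e := by
      intro j
      induction j with
      | zero => simp
      | succ j ih =>
        rw [pow_succ', Module.End.mul_apply, ← ih]
        conv_lhs => rw [← hw]
        exact hiso _ _
    rw [h3, dot_apply, he]
    simp [Pi.single_apply]
  rw [Finset.sum_congr rfl h2, Finset.sum_const, Finset.card_range, nsmul_eq_mul] at h1
  rcases mul_eq_zero.1 h1 with h3 | h3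
  · exact absurd h3 hN
  · exact h3

end dot

section main

variable {K : Type} [Field K] {Y : Type} [Fintype Y]
  {C P : Module.End K (Y → K)} {N : ℕ}

/-- The fixed space of `P` has even dimension. -/
theorem even_fixed (hN : (N : K) ≠ 0) (hNe : Even N)
    (h1 : ∀ f g, dot K Y (C f) g = dot K Y f (C g))
    (h2 : ∀ f, C (C f) = 0) (h3 : ∀ f, C f = 0 → ∃ g, C g = f)
    (h4 : ∀ f, C (P f) = - P (C f)) (h5 : ∀ f g, dot K Y (P f) (P g) = dot K Y f g)
    (h6 : P ^ N = 1) : Even (Module.finrank K (LinearMap.ker (P - 1))) := by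
  classical
  have hmem : ∀ f, f ∈ LinearMap.ker (P - 1) ↔ P f = f := by
    intro f
    rw [LinearMap.mem_ker, LinearMap.sub_apply, Module.End.one_apply, sub_eq_zero]
  set U := LinearMap.ker (P - 1) with hU
  let B : LinearMap.BilinForm K U := (dot K Y).restrict U
  have hB : ∀ u v : U, B u v = dot K Y u.1 v.1 := fun u v => rfl
  let E : Submodule K U := LinearMap.ker (C.comp U.subtype)
  have hE : ∀ u : U, u ∈ E ↔ C u.1 = 0 := fun u => Iff.rfl
  have hker : LinearMap.ker B = ⊥ := by
    rw [LinearMap.ker_eq_bot']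
    intro u hu
    apply Subtype.ext
    refine nondeg_fixed P h5 N hN h6 u.1 ((hmem _).1 u.2) ?_
    intro v hv
    exact LinearMap.congr_fun hu ⟨v, (hmem v).2 hv⟩
  -- exactness
  have hexact : ∀ x : Y → K, C x = 0 → P x = x → ∃ y, P y = -y ∧ C y = x := by
    intro x hx hPx
    obtain ⟨y, hy1, hy2⟩ := exact_eigen C P N hN 1 (-1) one_ne_zero (by simp) (hNe.neg_one_pow) h6
      (by intro x; rw [one_smul, h4, neg_one_smul]) h3 x hx (by rw [one_smul]; exact hPx)
    exact ⟨y, by rw [hy1, neg_one_smul], hy2⟩
  have horth : B.orthogonal E = E := by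
    ext u
    rw [LinearMap.BilinForm.mem_orthogonal_iff, hE]
    constructor
    · intro h
      -- `C u` lies in the `-1` eigenspace
      have hCu : P (C u.1) = - C u.1 := by
        have := h4 u.1
        rw [(hmem _).1 u.2] at this
        exact (neg_eq_iff_eq_neg.2 this).symm
      have hnegP : ((-1 : K) • P) ^ N = 1 := by
        rw [smul_pow, h6, hNe.neg_one_pow, one_smul]
      refine nondeg_fixed ((-1 : K) • P) (by intro f g; simp [h5]) N hN hnegP _
        (by rw [LinearMap.smul_apply, hCu, neg_one_smul, neg_neg]) ?_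
      intro v hv
      have hPv : P v = -v := by
        rw [LinearMap.smul_apply, neg_one_smul, neg_eq_iff_eq_neg] at hv
        exact hv
      have hPCv : P (C v) = C v := by
        have := h4 v
        rw [hPv, map_neg, neg_inj] at this
        exact this.symm
      have h7 := h ⟨C v, (hmem _).2 hPCv⟩ (h2 v)
      have h8 : dot K Y (C v) u.1 = 0 := h7
      rw [h1, dot_comm] at h8
      exact h8
    · intro hu e he
      obtain ⟨y, _, hy⟩ := hexact u.1 hu ((hmem _).1 u.2)
      show dot K Y e.1 u.1 = 0
      rw [← hy, ← h1, show C e.1 = 0 from he]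
      simp
  have h := LinearMap.BilinForm.finrank_add_finrank_orthogonal' (B := B) E
  rw [horth, hker, inf_bot_eq, finrank_bot, add_zero] at h
  exact ⟨_, h.symm⟩

/-- The eigenspace `P² = c` with `c` a nonsquare has dimension divisible by four. -/
theorem four_dvd_eigen (hN : (N : K) ≠ 0) (c : K) (hc : ∀ x : K, x ^ 2 ≠ c) (hc0 : c ≠ 0)
    (hcN : c ^ N = 1)
    (h2 : ∀ f, C (C f) = 0) (h3 : ∀ f, C f = 0 → ∃ g, C g = f)
    (h4 : ∀ f, C (P f) = - P (C f)) (h6 : P ^ N = 1) :
    4 ∣ Module.finrank K (LinearMap.ker (P * P - c • (1 : Module.End K (Y → K)))) := by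
  have hmem : ∀ f, f ∈ LinearMap.ker (P * P - c • (1 : Module.End K (Y → K))) ↔
      P (P f) = c • f := by
    intro f
    rw [LinearMap.mem_ker, LinearMap.sub_apply, sub_eq_zero]
    rfl
  set U := LinearMap.ker (P * P - c • (1 : Module.End K (Y → K))) with hU
  have hCU : ∀ u ∈ U, C u ∈ U := by
    intro u hu
    rw [hmem] at hu ⊢
    have h7 : P (P (C u)) = C (P (P u)) := by
      rw [h4, h4, map_neg, neg_neg]
    rw [h7, hu, map_smul]
  have hPU : ∀ u ∈ U, P u ∈ U := by
    intro u hu
    rw [hmem] at hu ⊢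
    rw [hu, map_smul]
  let CU : Module.End K U := C.restrict hCU
  have hrange : LinearMap.range CU = LinearMap.ker CU := by
    ext u
    constructor
    · rintro ⟨v, rfl⟩
      rw [LinearMap.mem_ker]
      exact Subtype.ext (h2 v.1)
    · intro hu
      have hu' : C u.1 = 0 := congrArg Subtype.val (LinearMap.mem_ker.1 hu)
      obtain ⟨y, hy1, hy2⟩ := exact_eigen C (P * P) N hN c c hc0 hc0 hcN
        (by rw [← sq, ← pow_mul, mul_comm, pow_mul, h6, one_pow])
        (by
          intro x
          congr 1
          show C (P (P x)) = P (P (C x))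
          rw [h4, h4, map_neg, neg_neg]) h3 u.1 hu' ((hmem _).1 u.2)
      exact ⟨⟨y, (hmem y).2 hy1⟩, Subtype.ext hy2⟩
  have hdim := LinearMap.finrank_range_add_finrank_ker CU
  rw [hrange] at hdim
  -- the kernel is stable under `P`
  have hJ : Even (Module.finrank K (LinearMap.ker CU)) := by
    let PU : Module.End K U := P.restrict hPU
    have hPk : ∀ u ∈ LinearMap.ker CU, PU u ∈ LinearMap.ker CU := by
      intro u hu
      have hu' : C u.1 = 0 := congrArg Subtype.val (LinearMap.mem_ker.1 hu)
      rw [LinearMap.mem_ker]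
      apply Subtype.ext
      show C (P u.1) = 0
      rw [h4, hu', map_zero, neg_zero]
    let J : Module.End K (LinearMap.ker CU) := PU.restrict hPk
    refine even_of_sq (V := ↥(LinearMap.ker CU)) J c hc hc0 ?_
    intro v
    apply Subtype.ext
    apply Subtype.ext
    exact (hmem _).1 v.1.2
  obtain ⟨k, hk⟩ := hJ
  exact ⟨k, by omega⟩

end main

end Pool.Agent.Lib.MP_9bdacc_co
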