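import Mathlib

/-!
Cycles of a permutation of a finite set (fixed points included), and the dimension of spaces of
equivariant functions.
-/

namespace Pool.Agent.Lib.MP_9bdacc_co

open Function

variable {X : Type} [Fintype X]

/-- The set of cycles of a permutation, fixed points included. -/
abbrev Cyc (σ : Equiv.Perm X) : Type := Quotient (Equiv.Perm.SameCycle.setoid σ)

noncomputable instance (σ : Equiv.Perm X) : Fintype (Cyc σ) := Fintype.ofFinite _

/-- The cycle of a point. -/
def cyc (σ : Equiv.Perm X) (x : X) : Cyc σ := Quotient.mk _ x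

/-- A representative of a cycle. -/
noncomputable def rep {σ : Equiv.Perm X} (ω : Cyc σ) : X := Quotient.out ω

omit [Fintype X] in
theorem cyc_rep {σ : Equiv.Perm X} (ω : Cyc σ) : cyc σ (rep ω) = ω := Quotient.out_eq ω

omit [Fintype X] in
theorem cyc_eq_iff {σ : Equiv.Perm X} {x y : X} : cyc σ x = cyc σ y ↔ σ.SameCycle x y :=
  Quotient.eq (r := Equiv.Perm.SameCycle.setoid σ)

/-- The length of a cycle. -/
noncomputable def len {σ : Equiv.Perm X} (ω : Cyc σ) : ℕ := minimalPeriod σ (rep ω)

theorem mem_periodic (σ : Equiv.Perm X) (x : X) : x ∈ periodicPts σ := by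
  refine ⟨orderOf σ, orderOf_pos σ, ?_⟩
  unfold IsPeriodicPt IsFixedPt
  rw [Equiv.Perm.iterate_eq_pow, pow_orderOf_eq_one]
  rfl

theorem len_pos {σ : Equiv.Perm X} (ω : Cyc σ) : 0 < len ω :=
  minimalPeriod_pos_of_mem_periodicPts (mem_periodic σ _)

theorem exists_iterate {σ : Equiv.Perm X} (x : X) : ∃ j : ℕ, σ^[j] (rep (cyc σ x)) = x := by
  have h : σ.SameCycle (rep (cyc σ x)) x := cyc_eq_iff.1 (cyc_rep _)
  obtain ⟨i, hi⟩ := h.exists_nat_pow_eq
  exact ⟨i, by rw [Equiv.Perm.iterate_eq_pow]; exact hi⟩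

omit [Fintype X] in
theorem cyc_iterate {σ : Equiv.Perm X} (x : X) (j : ℕ) : cyc σ (σ^[j] x) = cyc σ x := by
  rw [cyc_eq_iff, Equiv.Perm.iterate_eq_pow]
  exact (Equiv.Perm.SameCycle.refl σ x).pow_left

omit [Fintype X] in
theorem cyc_apply {σ : Equiv.Perm X} (x : X) : cyc σ (σ x) = cyc σ x := cyc_iterate x 1

theorem mod_eq {σ : Equiv.Perm X} {ω : Cyc σ} {a b : ℕ} (h : σ^[a] (rep ω) = σ^[b] (rep ω)) :
    a % len ω = b % len ω := by
  have h1 : σ^[a % len ω] (rep ω) = σ^[b % len ω] (rep ω) := by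
    unfold len
    rw [iterate_mod_minimalPeriod_eq, iterate_mod_minimalPeriod_eq, h]
  exact (iterate_eq_iterate_iff_of_lt_minimalPeriod (Nat.mod_lt _ (len_pos ω))
    (Nat.mod_lt _ (len_pos ω))).1 h1

open Classical in
theorem card_fiber {σ : Equiv.Perm X} (ω : Cyc σ) :
    (Finset.univ.filter fun x => cyc σ x = ω).card = len ω := by
  have h : (Finset.univ.filter fun x => cyc σ x = ω) =
      (Finset.range (len ω)).image fun i => σ^[i] (rep ω) := by
    ext x
    simp only [Finset.mem_filter, Finset.mem_univ, true_and, Finset.mem_image, Finset.mem_range]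
    constructor
    · rintro rfl
      obtain ⟨j, hj⟩ := exists_iterate (σ := σ) x
      refine ⟨j % len (cyc σ x), Nat.mod_lt _ (len_pos _), ?_⟩
      unfold len
      rw [iterate_mod_minimalPeriod_eq, hj]
    · rintro ⟨i, _, rfl⟩
      rw [cyc_iterate, cyc_rep]
  rw [h, Finset.card_image_of_injOn, Finset.card_range]
  intro a ha b hb hab
  exact (iterate_eq_iterate_iff_of_lt_minimalPeriod (Finset.mem_range.1 ha)
    (Finset.mem_range.1 hb)).1 hab

theorem card_eq_sum_len (σ : Equiv.Perm X) : Fintype.card X = ∑ ω : Cyc σ, len ω := by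
  classical
  rw [← Finset.card_univ, Finset.card_eq_sum_card_fiberwise (f := cyc σ) (t := Finset.univ)
    (fun x _ => Finset.mem_coe.2 (Finset.mem_univ _))]
  exact Finset.sum_congr rfl fun ω _ => card_fiber ω

/-- Cycle lengths for a permutation of order a power of two with one fixed point and no cycle of
length two. -/
theorem len_cases {σ : Equiv.Perm X} {a : ℕ} (ha : σ ^ (2 ^ a) = 1) {v0 : X}
    (hfix : ∀ x, σ x = x ↔ x = v0) (h2 : ∀ x, σ (σ x) = x → σ x = x) (ω : Cyc σ) :
    (len ω = 1 ∧ ω = cyc σ v0) ∨ (len ω = 4 ∧ ω ≠ cyc σ v0) ∨ (8 ∣ len ω ∧ ω ≠ cyc σ v0) := by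
  have hdvd : len ω ∣ 2 ^ a := by
    apply IsPeriodicPt.minimalPeriod_dvd
    unfold IsPeriodicPt IsFixedPt
    rw [Equiv.Perm.iterate_eq_pow, ha]
    rfl
  obtain ⟨b, _, hb⟩ := (Nat.dvd_prime_pow Nat.prime_two).1 hdvd
  have hper : σ^[len ω] (rep ω) = rep ω := iterate_minimalPeriod
  have hv0 : ω = cyc σ v0 → len ω = 1 := by
    intro h
    have h1 : σ.SameCycle (rep ω) v0 := cyc_eq_iff.1 (by rw [cyc_rep, h])
    have h3 : σ (rep ω) = rep ω := h1.apply_eq_self_iff.2 ((hfix v0).2 rfl)
    unfold len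
    rw [minimalPeriod_eq_one_iff_isFixedPt]
    exact h3
  rcases b with _ | _ | _ | b
  · left
    have h1 : len ω = 1 := by simpa using hb
    refine ⟨h1, ?_⟩
    rw [h1] at hper
    have : rep ω = v0 := (hfix _).1 hper
    rw [← cyc_rep ω, this]
  · exfalso
    have h1 : len ω = 2 := by simpa using hb
    rw [h1] at hper
    have h3 : σ (rep ω) = rep ω := h2 _ hper
    have : len ω = 1 := by
      unfold len
      rw [minimalPeriod_eq_one_iff_isFixedPt]
      exact h3
    omega
  · right
    left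
    have h1 : len ω = 4 := by simpa using hb
    exact ⟨h1, fun h => by have := hv0 h; omega⟩
  · right
    right
    have h1 : 8 ∣ len ω := by
      rw [hb]
      exact ⟨2 ^ b, by ring⟩
    exact ⟨h1, fun h => by have := hv0 h; omega⟩

open Classical in
/-- The parity relation between the number of cycles and the number of long cycles. -/
theorem parity {σ : Equiv.Perm X} {a : ℕ} (ha : σ ^ (2 ^ a) = 1) {v0 : X}
    (hfix : ∀ x, σ x = x ↔ x = v0) (h2 : ∀ x, σ (σ x) = x → σ x = x) :
    (Fintype.card X + 3 + 4 * Nat.card {ω : Cyc σ // 8 ∣ len ω}) % 8 =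
      (4 * Fintype.card (Cyc σ)) % 8 := by
  rw [Nat.card_eq_fintype_card]
  have hsum : ∑ ω : Cyc σ, (len ω + (if ω = cyc σ v0 then 3 else 0) +
      (if 8 ∣ len ω then 4 else 0)) ≡ ∑ _ω : Cyc σ, 4 [MOD 8] := by
    refine Nat.ModEq.sum fun ω _ => ?_
    rcases len_cases ha hfix h2 ω with ⟨h1, h3⟩ | ⟨h1, h3⟩ | ⟨h1, h3⟩
    · rw [if_pos h3, h1, if_neg (by norm_num)]
    · rw [if_neg h3, h1, if_neg (by norm_num)]
    · rw [if_neg h3, if_pos h1]
      obtain ⟨c, hc⟩ := h1
      rw [hc]
      unfold Nat.ModEq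
      omega
  rw [Finset.sum_add_distrib, Finset.sum_add_distrib, ← card_eq_sum_len, Finset.sum_ite_eq',
    if_pos (Finset.mem_univ _), ← Finset.sum_filter, Finset.sum_const, Finset.sum_const,
    Finset.card_univ, ← Fintype.card_subtype] at hsum
  unfold Nat.ModEq at hsum
  simpa [mul_comm] using hsum

section functions

variable {K W : Type} [Field K] [AddCommGroup W] [Module K W]

/-- Functions `F` with `F (σ x) = M (F x)`. -/
def eqv (σ : Equiv.Perm X) (M : Module.End K W) : Submodule K (X → W) where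
  carrier := {F | ∀ x, F (σ x) = M (F x)}
  add_mem' := by
    intro F G hF hG x
    simp only [Pi.add_apply, map_add]
    rw [hF x, hG x]
  zero_mem' := by
    intro x
    simp
  smul_mem' := by
    intro c F hF x
    simp only [Pi.smul_apply, map_smul]
    rw [hF x]

omit [Fintype X] in
theorem eqv_iterate {σ : Equiv.Perm X} {M : Module.End K W} {F : X → W} (hF : F ∈ eqv σ M)
    (x : X) (j : ℕ) : F (σ^[j] x) = (M ^ j) (F x) := by
  induction j with
  | zero => simp
  | succ j ih =>
    rw [iterate_succ_apply', pow_succ']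
    show F (σ (σ^[j] x)) = M ((M ^ j) (F x))
    rw [← ih]
    exact hF _

open Classical in
theorem finrank_eqv {σ : Equiv.Perm X} {M : Module.End K W}
    [FiniteDimensional K W] (good : Cyc σ → Prop)
    (hgood : ∀ ω, good ω → M ^ len ω = 1)
    (hbad : ∀ ω, ¬ good ω → ∀ w, (M ^ len ω) w = w → w = 0) :
    Module.finrank K (eqv σ M) = Nat.card {ω : Cyc σ // good ω} * Module.finrank K W := by
  rw [Nat.card_eq_fintype_card]
  let φ : eqv σ M →ₗ[K] ({ω : Cyc σ // good ω} → W) :=
    { toFun := fun F ω => F.1 (rep ω.1)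
      map_add' := fun F G => by ext ω; rfl
      map_smul' := fun c F => by ext ω; rfl }
  have hinj : Function.Injective φ := by
    rw [← LinearMap.ker_eq_bot, LinearMap.ker_eq_bot']
    rintro ⟨F, hF⟩ h0
    have h1 : ∀ ω : Cyc σ, F (rep ω) = 0 := by
      intro ω
      by_cases hω : good ω
      · exact congrFun h0 ⟨ω, hω⟩
      · apply hbad ω hω
        rw [← eqv_iterate hF, show σ^[len ω] (rep ω) = rep ω from iterate_minimalPeriod]
    apply Subtype.ext
    funext x
    obtain ⟨j, hj⟩ := exists_iterate (σ := σ) x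
    show F x = 0
    rw [← hj, eqv_iterate hF, h1, map_zero]
  have hsurj : Function.Surjective φ := by
    intro g
    choose j hj using fun x => exists_iterate (σ := σ) x
    let F : X → W := fun x => if h : good (cyc σ x) then (M ^ j x) (g ⟨cyc σ x, h⟩) else 0
    have hF : F ∈ eqv σ M := by
      intro x
      by_cases h : good (cyc σ x)
      · have h' : good (cyc σ (σ x)) := by rwa [cyc_apply]
        have hg : g ⟨cyc σ (σ x), h'⟩ = g ⟨cyc σ x, h⟩ := by
          congr 1
          exact Subtype.ext (cyc_apply x)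
        simp only [F, dif_pos h, dif_pos h', hg]
        have h3 : j (σ x) % len (cyc σ x) = (j x + 1) % len (cyc σ x) := by
          apply mod_eq
          have h4 := hj (σ x)
          rw [cyc_apply] at h4
          rw [h4, iterate_succ_apply', hj]
        rw [pow_eq_pow_mod _ (hgood _ h), h3, ← pow_eq_pow_mod _ (hgood _ h), pow_succ']
        rfl
      · have h' : ¬ good (cyc σ (σ x)) := by rwa [cyc_apply]
        simp only [F, dif_neg h, dif_neg h', map_zero]
    refine ⟨⟨F, hF⟩, ?_⟩
    funext ω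
    have h : good (cyc σ (rep ω.1)) := by
      rw [cyc_rep]
      exact ω.2
    show F (rep ω.1) = g ω
    simp only [F, dif_pos h]
    have hg : g ⟨cyc σ (rep ω.1), h⟩ = g ω := by
      congr 1
      exact Subtype.ext (cyc_rep _)
    rw [hg]
    have h3 : j (rep ω.1) % len ω.1 = 0 % len ω.1 := by
      apply mod_eq
      have h4 := hj (rep ω.1)
      rw [cyc_rep] at h4
      rw [h4]
      rfl
    rw [pow_eq_pow_mod _ (hgood _ ω.2), h3, ← pow_eq_pow_mod _ (hgood _ ω.2), pow_zero]
    rfl
  have h := (LinearEquiv.ofBijective φ ⟨hinj, hsurj⟩).finrank_eq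
  rw [h, Module.finrank_pi_fintype, Finset.sum_const, Finset.card_univ, smul_eq_mul]

end functions

end Pool.Agent.Lib.MP_9bdacc_co
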